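import Mathlib

/-!
# Sparse linear systems modulo a prime with strong expansion (section 6 of the blueprint)
-/

namespace Pool.Agent.H19.GR

open Finset

variable {p : ℕ} [Fact p.Prime]

/-- Number of coefficient vectors with all sums over the columns of `Z` equal to zero. -/
theorem fib {ι : Type} [Fintype ι] [DecidableEq ι] {M : ℕ} (κ : ι → Fin M) (u : ι → ZMod p)
    (Z : Finset (Fin M)) :
    (univ.filter fun t : ι → ZMod p => ∀ j ∈ Z, ∑ i, (if κ i = j then u i * t i else 0) = 0).card *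
      p ^ (Z.filter fun j => ∃ i, u i ≠ 0 ∧ κ i = j).card ≤ p ^ Fintype.card ι := by
  classical
  set H := Z.filter fun j => ∃ i, u i ≠ 0 ∧ κ i = j with hH
  have hrep : ∀ j : {j // j ∈ H}, ∃ i, u i ≠ 0 ∧ κ i = j.1 := fun j => (mem_filter.1 j.2).2
  choose rep hr1 hr2 using hrep
  have hcard : p ^ H.card = Fintype.card ({j // j ∈ H} → ZMod p) := by
    rw [Fintype.card_fun, ZMod.card, Fintype.card_coe]
  have hcard2 : p ^ Fintype.card ι = Fintype.card (ι → ZMod p) := by
    rw [Fintype.card_fun, ZMod.card]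
  rw [hcard, hcard2, ← Finset.card_univ, ← Finset.card_univ, ← Finset.card_product]
  refine Finset.card_le_card_of_injOn
    (fun q : (ι → ZMod p) × ({j // j ∈ H} → ZMod p) => fun i =>
      q.1 i + ∑ j : {j // j ∈ H}, if i = rep j then q.2 j else 0) (fun _ _ => mem_coe.2 (mem_univ _)) ?_
  have key : ∀ (t : ι → ZMod p) (s : {j // j ∈ H} → ZMod p)
      (_ : ∀ j ∈ Z, ∑ i, (if κ i = j then u i * t i else 0) = 0) (j : {j // j ∈ H}),
      ∑ i, (if κ i = j.1 then u i * (t i + ∑ j' : {j // j ∈ H}, if i = rep j' then s j' else 0) else 0) =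
        u (rep j) * s j := by
    intro t s ht j
    have h1 : ∀ i, (if κ i = j.1 then u i * (t i + ∑ j' : {j // j ∈ H}, if i = rep j' then s j' else 0)
        else 0) = (if κ i = j.1 then u i * t i else 0) +
          ∑ j' : {j // j ∈ H}, (if i = rep j' then (if κ i = j.1 then u i * s j' else 0) else 0) := by
      intro i
      by_cases h : κ i = j.1
      · simp only [h, if_true, mul_add, Finset.mul_sum]
        congr 1
        refine Finset.sum_congr rfl fun j' _ => ?_
        by_cases h2 : i = rep j' <;> simp [h2]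
      · simp [h]
    rw [Finset.sum_congr rfl fun i _ => h1 i, Finset.sum_add_distrib,
      ht j.1 (mem_filter.1 j.2).1, zero_add, Finset.sum_comm]
    rw [Finset.sum_eq_single j]
    · rw [Finset.sum_ite_eq' univ (rep j)]
      simp [hr2 j]
    · intro j' _ hj'
      rw [Finset.sum_ite_eq' univ (rep j')]
      have : κ (rep j') ≠ j.1 := by
        rw [hr2 j']
        exact fun h => hj' (Subtype.ext h)
      simp [this]
    · intro h
      exact absurd (mem_univ _) h
  rintro ⟨t, s⟩ hts ⟨t', s'⟩ hts' heq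
  have ht := (mem_filter.1 (mem_product.1 (mem_coe.1 hts)).1).2
  have ht' := (mem_filter.1 (mem_product.1 (mem_coe.1 hts')).1).2
  simp only at ht ht' heq
  have hs : s = s' := by
    funext j
    have e1 := key t s ht j
    have e2 := key t' s' ht' j
    have : u (rep j) * s j = u (rep j) * s' j := by
      rw [← e1, ← e2]
      refine Finset.sum_congr rfl fun i _ => ?_
      have h5 := congrFun heq i
      rw [h5]
    exact mul_left_cancel₀ (hr1 j) this
  subst hs
  have : t = t' := by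
    funext i
    have h5 := congrFun heq i
    simpa using h5
  rw [this]

/-- Functions avoiding the columns of `B` on the picks with nonzero weight. -/
theorem avoid {ι : Type} [Fintype ι] [DecidableEq ι] {M : ℕ} (S : Finset ι) (B : Finset (Fin M)) :
    ((univ.filter fun κ : ι → Fin M => ∀ i ∈ S, κ i ∉ B).card : ℝ) ≤
      (M : ℝ) ^ Fintype.card ι * Real.exp (-(S.card : ℝ) / M) ^ B.card := by
  classical
  have h1 : (univ.filter fun κ : ι → Fin M => ∀ i ∈ S, κ i ∉ B) =
      Fintype.piFinset fun i => if i ∈ S then Bᶜ else univ := by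
    ext κ
    simp only [mem_filter, mem_univ, true_and, Fintype.mem_piFinset]
    constructor
    · intro h i
      by_cases hi : i ∈ S
      · simp [hi, h i hi]
      · simp [hi]
    · intro h i hi
      have := h i
      simpa [hi] using this
  rw [h1, Fintype.card_piFinset]
  have h2 : ∀ i, (if i ∈ S then Bᶜ else (univ : Finset (Fin M))).card =
      if i ∈ S then M - B.card else M := by
    intro i
    by_cases hi : i ∈ S
    · simp [hi, Finset.card_compl]
    · simp [hi]
  rw [Finset.prod_congr rfl fun i _ => h2 i, Finset.prod_ite]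
  simp only [Finset.prod_const]
  have h3 : (univ.filter fun i => i ∈ S).card = S.card := by
    congr 1
    ext i
    simp
  have h4 : (univ.filter fun i => i ∉ S).card = Fintype.card ι - S.card := by
    rw [← Finset.card_compl]
    congr 1
    ext i
    simp
  rw [h3, h4]
  have hB : B.card ≤ M := by
    have := Finset.card_le_univ B
    simpa using this
  have hS : S.card ≤ Fintype.card ι := Finset.card_le_univ S
  rcases Nat.eq_zero_or_pos M with hM | hM
  · have hB0 : B.card = 0 := by omega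
    subst hM
    simp only [hB0, pow_zero, mul_one, Nat.sub_zero]
    push_cast
    rw [← pow_add, Nat.add_sub_cancel' hS]
  · push_cast
    rw [Nat.cast_sub hB]
    have hMr : (0 : ℝ) < M := by exact_mod_cast hM
    have h5 : ((M : ℝ) - B.card) ≤ M * Real.exp (-(B.card : ℝ) / M) := by
      have := Real.add_one_le_exp (-(B.card : ℝ) / M)
      have h6 : M * (-(B.card : ℝ) / M + 1) = M - B.card := by
        field_simp
        ring
      calc ((M : ℝ) - B.card) = M * (-(B.card : ℝ) / M + 1) := h6.symm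
        _ ≤ _ := mul_le_mul_of_nonneg_left this hMr.le
    have h7 : (0 : ℝ) ≤ (M : ℝ) - B.card := by
      have : (B.card : ℝ) ≤ M := by exact_mod_cast hB
      linarith
    calc ((M : ℝ) - B.card) ^ S.card * (M : ℝ) ^ (Fintype.card ι - S.card)
        ≤ (M * Real.exp (-(B.card : ℝ) / M)) ^ S.card * (M : ℝ) ^ (Fintype.card ι - S.card) := by
          gcongr
      _ = ((M : ℝ) ^ S.card * (M : ℝ) ^ (Fintype.card ι - S.card)) *
          Real.exp (-(B.card : ℝ) / M) ^ S.card := by
          rw [mul_pow]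
          ring
      _ = (M : ℝ) ^ Fintype.card ι * Real.exp (-(S.card : ℝ) / M) ^ B.card := by
          rw [← pow_add, Nat.add_sub_cancel' hS, ← Real.exp_nat_mul, ← Real.exp_nat_mul]
          congr 2
          ring

/-- The number of bad samples for one vector of weights. -/
theorem bad {ι : Type} [Fintype ι] [DecidableEq ι] {M : ℕ} (u : ι → ZMod p)
    (Z : Finset (Fin M)) (x : ℝ)
    (hx : Real.exp (-(((univ.filter fun i => u i ≠ 0).card : ℕ) : ℝ) / M) ≤ x) :
    ((univ.filter fun q : (ι → Fin M) × (ι → ZMod p) =>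
      ∀ j ∈ Z, ∑ i, (if q.1 i = j then u i * q.2 i else 0) = 0).card : ℝ) ≤
      (M : ℝ) ^ Fintype.card ι * (p : ℝ) ^ Fintype.card ι * (1 / p + x) ^ Z.card := by
  classical
  have hp : (0 : ℝ) < p := by exact_mod_cast (Fact.out : p.Prime).pos
  have h1 : ((univ.filter fun q : (ι → Fin M) × (ι → ZMod p) =>
      ∀ j ∈ Z, ∑ i, (if q.1 i = j then u i * q.2 i else 0) = 0).card : ℝ) =
      ∑ κ : ι → Fin M, ((univ.filter fun t : ι → ZMod p =>
        ∀ j ∈ Z, ∑ i, (if κ i = j then u i * t i else 0) = 0).card : ℝ) := by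
    rw [Finset.card_filter, Fintype.sum_prod_type]
    push_cast
    refine Finset.sum_congr rfl fun κ _ => ?_
    rw [Finset.card_filter]
    push_cast
    rfl
  rw [h1]
  have h2 : ∀ κ : ι → Fin M, ((univ.filter fun t : ι → ZMod p =>
        ∀ j ∈ Z, ∑ i, (if κ i = j then u i * t i else 0) = 0).card : ℝ) ≤
      (p : ℝ) ^ Fintype.card ι * ∏ j ∈ Z, (1 / (p : ℝ) + if (∃ i, u i ≠ 0 ∧ κ i = j) then 0 else 1) := by
    intro κ
    have h3 := fib κ u Z
    have h4 : (1 / (p : ℝ)) ^ (Z.filter fun j => ∃ i, u i ≠ 0 ∧ κ i = j).card ≤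
        ∏ j ∈ Z, (1 / (p : ℝ) + if (∃ i, u i ≠ 0 ∧ κ i = j) then 0 else 1) := by
      rw [← Finset.prod_const, Finset.prod_filter]
      refine Finset.prod_le_prod (fun j _ => ?_) fun j _ => ?_
      · split_ifs <;> positivity
      · split_ifs
        · simp
        · have : (0 : ℝ) ≤ 1 / p := by positivity
          linarith
    have h5 : ((univ.filter fun t : ι → ZMod p =>
        ∀ j ∈ Z, ∑ i, (if κ i = j then u i * t i else 0) = 0).card : ℝ) *
        (p : ℝ) ^ (Z.filter fun j => ∃ i, u i ≠ 0 ∧ κ i = j).card ≤ (p : ℝ) ^ Fintype.card ι := by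
      exact_mod_cast h3
    calc _ ≤ (p : ℝ) ^ Fintype.card ι *
          (1 / (p : ℝ)) ^ (Z.filter fun j => ∃ i, u i ≠ 0 ∧ κ i = j).card := by
          rw [one_div, inv_pow, ← div_eq_mul_inv, le_div_iff₀ (by positivity)]
          exact h5
      _ ≤ _ := mul_le_mul_of_nonneg_left h4 (by positivity)
  refine (Finset.sum_le_sum fun κ _ => h2 κ).trans ?_
  rw [← Finset.mul_sum]
  have h6 : ∀ κ : ι → Fin M, ∏ j ∈ Z, (1 / (p : ℝ) + if (∃ i, u i ≠ 0 ∧ κ i = j) then 0 else 1) =
      ∑ O ∈ Z.powerset, (1 / (p : ℝ)) ^ O.card *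
        (if (∀ i ∈ univ.filter fun i => u i ≠ 0, κ i ∉ Z \ O) then 1 else 0) := by
    intro κ
    rw [Finset.prod_add]
    refine Finset.sum_congr rfl fun O hO => ?_
    rw [Finset.prod_const]
    congr 1
    by_cases h : ∀ i ∈ univ.filter fun i => u i ≠ 0, κ i ∉ Z \ O
    · rw [if_pos h]
      refine Finset.prod_eq_one fun j hj => ?_
      rw [if_neg]
      rintro ⟨i, hi, rfl⟩
      exact h i (by simp [hi]) hj
    · rw [if_neg h]
      push Not at h
      obtain ⟨i, hi, hi2⟩ := h
      refine Finset.prod_eq_zero hi2 ?_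
      rw [if_pos ⟨i, (mem_filter.1 hi).2, rfl⟩]
  rw [Finset.sum_congr rfl fun κ _ => h6 κ, Finset.sum_comm]
  have h7 : ∀ O ∈ Z.powerset, ∑ κ : ι → Fin M, (1 / (p : ℝ)) ^ O.card *
        (if (∀ i ∈ univ.filter fun i => u i ≠ 0, κ i ∉ Z \ O) then (1 : ℝ) else 0) ≤
      (M : ℝ) ^ Fintype.card ι * ((1 / (p : ℝ)) ^ O.card * x ^ (Z.card - O.card)) := by
    intro O hO
    rw [← Finset.mul_sum]
    have h8 : ∑ κ : ι → Fin M, (if (∀ i ∈ univ.filter fun i => u i ≠ 0, κ i ∉ Z \ O) then (1 : ℝ) else 0) =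
        ((univ.filter fun κ : ι → Fin M => ∀ i ∈ univ.filter fun i => u i ≠ 0, κ i ∉ Z \ O).card : ℝ) := by
      rw [Finset.card_filter]
      push_cast
      rfl
    rw [h8]
    have h9 := avoid (univ.filter fun i => u i ≠ 0) (Z \ O)
    have h10 : (Z \ O).card = Z.card - O.card := Finset.card_sdiff_of_subset (Finset.mem_powerset.1 hO)
    rw [h10] at h9
    have h11 : Real.exp (-(((univ.filter fun i => u i ≠ 0).card : ℕ) : ℝ) / M) ^ (Z.card - O.card) ≤
        x ^ (Z.card - O.card) := pow_le_pow_left₀ (Real.exp_pos _).le hx _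
    calc (1 / (p : ℝ)) ^ O.card * _ ≤ (1 / (p : ℝ)) ^ O.card *
          ((M : ℝ) ^ Fintype.card ι * x ^ (Z.card - O.card)) := by
          refine mul_le_mul_of_nonneg_left (h9.trans ?_) (by positivity)
          exact mul_le_mul_of_nonneg_left h11 (by positivity)
      _ = _ := by ring
  refine (mul_le_mul_of_nonneg_left (Finset.sum_le_sum h7) (by positivity)).trans ?_
  rw [← Finset.mul_sum, Finset.sum_pow_mul_eq_add_pow]
  exact le_of_eq (by ring)

/-- Vectors of small support. -/
theorem count_small (m k : ℕ) :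
    (univ.filter fun l : Fin m → ZMod p => (univ.filter fun e => l e ≠ 0).card ≤ k).card ≤
      2 ^ m * p ^ k := by
  classical
  have h1 : (univ.filter fun l : Fin m → ZMod p => (univ.filter fun e => l e ≠ 0).card ≤ k) ⊆
      ((univ : Finset (Fin m)).powerset.filter fun S => S.card ≤ k).biUnion fun S =>
        Fintype.piFinset fun e => if e ∈ S then (univ : Finset (ZMod p)) else {0} := by
    intro l hl
    rw [mem_biUnion]
    refine ⟨univ.filter fun e => l e ≠ 0, ?_, ?_⟩
    · exact mem_filter.2 ⟨mem_powerset.2 (subset_univ _), (mem_filter.1 hl).2⟩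
    · rw [Fintype.mem_piFinset]
      intro e
      by_cases h : l e = 0
      · simp [h]
      · simp [h]
  refine (card_le_card h1).trans (card_biUnion_le.trans ?_)
  have h2 : ∀ S ∈ (univ : Finset (Fin m)).powerset.filter fun S => S.card ≤ k,
      (Fintype.piFinset fun e => if e ∈ S then (univ : Finset (ZMod p)) else {0}).card ≤ p ^ k := by
    intro S hS
    rw [Fintype.card_piFinset]
    have h3 : ∀ e : Fin m, (if e ∈ S then (univ : Finset (ZMod p)) else {0}).card =
        if e ∈ S then p else 1 := by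
      intro e
      by_cases h : e ∈ S
      · simp [h, ZMod.card]
      · simp [h]
    rw [Finset.prod_congr rfl fun e _ => h3 e, Finset.prod_ite_mem]
    simp only [Finset.univ_inter, Finset.prod_const]
    exact Nat.pow_le_pow_right (Fact.out : p.Prime).pos (mem_filter.1 hS).2
  refine (Finset.sum_le_sum h2).trans ?_
  rw [Finset.sum_const, smul_eq_mul]
  refine Nat.mul_le_mul_right _ ?_
  refine (card_le_card (filter_subset _ _)).trans ?_
  simp

theorem exists_good (M m a r z : ℕ) (hM : 0 < M)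
    (ha : Real.exp (-((r : ℝ) * a) / (2 * M)) ≤ 1 / p)
    (hnum : (2 : ℝ) ^ (m + M) * (p : ℝ) ^ (2 * r) * (2 / p) ^ z < 1) :
    ∃ q : (Fin m × Fin a → Fin M) × (Fin m × Fin a → ZMod p), ∀ l : Fin m → ZMod p,
      r ≤ 2 * (univ.filter fun e => l e ≠ 0).card → (univ.filter fun e => l e ≠ 0).card ≤ 2 * r →
      ∀ Z : Finset (Fin M), Z.card = z →
        ¬ ∀ j ∈ Z, ∑ i : Fin m × Fin a, (if q.1 i = j then l i.1 * q.2 i else 0) = 0 := by
  classical
  by_contra hcon
  push Not at hcon
  have hp : (0 : ℝ) < p := by exact_mod_cast (Fact.out : p.Prime).pos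
  set Λ := univ.filter fun l : Fin m → ZMod p => r ≤ 2 * (univ.filter fun e => l e ≠ 0).card ∧
    (univ.filter fun e => l e ≠ 0).card ≤ 2 * r with hΛ
  set 𝒵 := (univ : Finset (Finset (Fin M))).filter fun Z => Z.card = z with h𝒵
  set Bd : (Fin m → ZMod p) → Finset (Fin M) →
      Finset ((Fin m × Fin a → Fin M) × (Fin m × Fin a → ZMod p)) := fun l Z =>
    univ.filter fun q => ∀ j ∈ Z, ∑ i : Fin m × Fin a, (if q.1 i = j then l i.1 * q.2 i else 0) = 0
    with hBd
  have h1 : (univ : Finset ((Fin m × Fin a → Fin M) × (Fin m × Fin a → ZMod p))) ⊆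
      (Λ ×ˢ 𝒵).biUnion fun lZ => Bd lZ.1 lZ.2 := by
    intro q _
    obtain ⟨l, hl1, hl2, Z, hZ, h⟩ := hcon q
    rw [mem_biUnion]
    exact ⟨(l, Z), mem_product.2 ⟨mem_filter.2 ⟨mem_univ _, hl1, hl2⟩,
      mem_filter.2 ⟨mem_univ _, hZ⟩⟩, mem_filter.2 ⟨mem_univ _, h⟩⟩
  have h2 := (card_le_card h1).trans card_biUnion_le
  have hN : Fintype.card (Fin m × Fin a) = m * a := by simp
  have h3 : ((univ : Finset ((Fin m × Fin a → Fin M) × (Fin m × Fin a → ZMod p))).card : ℝ) =
      (M : ℝ) ^ (m * a) * (p : ℝ) ^ (m * a) := by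
    rw [Finset.card_univ, Fintype.card_prod, Fintype.card_fun, Fintype.card_fun, hN, ZMod.card,
      Fintype.card_fin]
    push_cast
    rfl
  have h4 : ∀ lZ ∈ Λ ×ˢ 𝒵, ((Bd lZ.1 lZ.2).card : ℝ) ≤
      (M : ℝ) ^ (m * a) * (p : ℝ) ^ (m * a) * (2 / p) ^ z := by
    rintro ⟨l, Z⟩ hlZ
    obtain ⟨hl, hZ⟩ := mem_product.1 hlZ
    have hl1 := (mem_filter.1 hl).2.1
    have hZ1 : Z.card = z := (mem_filter.1 hZ).2
    have h5 : (univ.filter fun i : Fin m × Fin a => l i.1 ≠ 0).card =
        (univ.filter fun e => l e ≠ 0).card * a := by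
      have : (univ.filter fun i : Fin m × Fin a => l i.1 ≠ 0) =
          (univ.filter fun e => l e ≠ 0) ×ˢ (univ : Finset (Fin a)) := by
        ext i
        simp
      rw [this, card_product]
      simp
    have h6 := bad (fun i : Fin m × Fin a => l i.1) Z (1 / p) (by
      rw [h5]
      refine le_trans (Real.exp_le_exp.2 ?_) ha
      have hMr : (0 : ℝ) < M := by exact_mod_cast hM
      have h7 : (r : ℝ) ≤ 2 * ((univ.filter fun e => l e ≠ 0).card : ℝ) := by exact_mod_cast hl1
      rw [div_le_div_iff₀ hMr (by positivity)]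
      push_cast
      have h8 : (r : ℝ) * a ≤ 2 * ((univ.filter fun e => l e ≠ 0).card : ℝ) * a :=
        mul_le_mul_of_nonneg_right h7 (Nat.cast_nonneg a)
      nlinarith)
    rw [hN, hZ1] at h6
    have h9 : (1 / (p : ℝ) + 1 / p) = 2 / p := by ring
    rw [h9] at h6
    exact h6
  have h5 : (M : ℝ) ^ (m * a) * (p : ℝ) ^ (m * a) ≤
      ((Λ ×ˢ 𝒵).card : ℝ) * ((M : ℝ) ^ (m * a) * (p : ℝ) ^ (m * a) * (2 / p) ^ z) := by
    rw [← h3]
    calc ((univ : Finset ((Fin m × Fin a → Fin M) × (Fin m × Fin a → ZMod p))).card : ℝ)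
        ≤ ((∑ lZ ∈ Λ ×ˢ 𝒵, (Bd lZ.1 lZ.2).card : ℕ) : ℝ) := by exact_mod_cast h2
      _ = ∑ lZ ∈ Λ ×ˢ 𝒵, ((Bd lZ.1 lZ.2).card : ℝ) := by push_cast; rfl
      _ ≤ ∑ lZ ∈ Λ ×ˢ 𝒵, (M : ℝ) ^ (m * a) * (p : ℝ) ^ (m * a) * (2 / p) ^ z := Finset.sum_le_sum h4
      _ = _ := by
        rw [Finset.sum_const, nsmul_eq_mul, h3]
  have h6 : ((Λ ×ˢ 𝒵).card : ℝ) ≤ (2 : ℝ) ^ (m + M) * (p : ℝ) ^ (2 * r) := by
    rw [card_product]
    have h7 : Λ.card ≤ 2 ^ m * p ^ (2 * r) := by
      refine le_trans (card_le_card ?_) (count_small m (2 * r))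
      intro l hl
      exact mem_filter.2 ⟨mem_univ _, (mem_filter.1 hl).2.2⟩
    have h8 : 𝒵.card ≤ 2 ^ M := by
      refine (card_le_univ _).trans ?_
      simp
    have h9 : Λ.card * 𝒵.card ≤ (2 ^ m * p ^ (2 * r)) * 2 ^ M := Nat.mul_le_mul h7 h8
    calc ((Λ.card * 𝒵.card : ℕ) : ℝ) ≤ (((2 ^ m * p ^ (2 * r)) * 2 ^ M : ℕ) : ℝ) := by exact_mod_cast h9
      _ = _ := by
        push_cast
        ring
  have hpos : (0 : ℝ) < (M : ℝ) ^ (m * a) * (p : ℝ) ^ (m * a) := by
    have hMr : (0 : ℝ) < M := by exact_mod_cast hM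
    positivity
  have h7 : (M : ℝ) ^ (m * a) * (p : ℝ) ^ (m * a) ≤
      ((2 : ℝ) ^ (m + M) * (p : ℝ) ^ (2 * r) * (2 / p) ^ z) *
        ((M : ℝ) ^ (m * a) * (p : ℝ) ^ (m * a)) := by
    refine h5.trans ?_
    calc ((Λ ×ˢ 𝒵).card : ℝ) * ((M : ℝ) ^ (m * a) * (p : ℝ) ^ (m * a) * (2 / p) ^ z)
        ≤ ((2 : ℝ) ^ (m + M) * (p : ℝ) ^ (2 * r)) *
          ((M : ℝ) ^ (m * a) * (p : ℝ) ^ (m * a) * (2 / p) ^ z) :=
          mul_le_mul_of_nonneg_right h6 (by positivity)
      _ = _ := by ring
  nlinarith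

theorem sum_sub {m : ℕ} (P : Fin m → Prop) [DecidablePred P] (F : Fin m → ZMod p)
    (h : ∀ e, ¬ P e → F e = 0) : ∑ e, F e = ∑ e : {e // P e}, F e.1 := by
  rw [← Fintype.sum_subtype_add_sum_subtype P F]
  have : ∑ e : {e // ¬ P e}, F e.1 = 0 := Finset.sum_eq_zero fun e _ => h e.1 e.2
  rw [this, add_zero]

/-- The support of a vector of coefficients. -/
def sp {m : ℕ} (l : Fin m → ZMod p) : Finset (Fin m) := univ.filter fun e => l e ≠ 0

theorem sp_add {m : ℕ} (l l' : Fin m → ZMod p) : (sp (l + l')).card ≤ (sp l).card + (sp l').card := by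
  classical
  refine (card_le_card ?_).trans (card_union_le _ _)
  intro e he
  rw [mem_union]
  by_contra h
  push Not at h
  have h1 : l e = 0 := by
    by_contra h'
    exact h.1 (mem_filter.2 ⟨mem_univ _, h'⟩)
  have h2 : l' e = 0 := by
    by_contra h'
    exact h.2 (mem_filter.2 ⟨mem_univ _, h'⟩)
  exact (mem_filter.1 he).2 (by simp [h1, h2])

theorem kernel_union {M m r : ℕ} (A : Fin m → Fin M → ZMod p)
    (hH : ∀ l : Fin m → ZMod p, r ≤ 2 * (sp l).card → (sp l).card ≤ 2 * r →
      (univ.filter fun j => ∑ e, l e * A e j = 0).card < M) :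
    ∃ U : Finset (Fin m), U.card ≤ r ∧ ∀ l : Fin m → ZMod p, (∀ j, ∑ e, l e * A e j = 0) →
      (sp l).card ≤ 2 * r → sp l ⊆ U := by
  classical
  set G := univ.filter fun l : Fin m → ZMod p => (∀ j, ∑ e, l e * A e j = 0) ∧ (sp l).card ≤ 2 * r
    with hG
  have hsm : ∀ l : Fin m → ZMod p, (∀ j, ∑ e, l e * A e j = 0) → (sp l).card ≤ 2 * r →
      2 * (sp l).card < r := by
    intro l h1 h2
    by_contra h3
    push Not at h3
    have h4 := hH l h3 h2
    have h5 : (univ.filter fun j => ∑ e, l e * A e j = 0) = univ := by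
      ext j
      simp [h1 j]
    rw [h5, Finset.card_univ, Fintype.card_fin] at h4
    exact lt_irrefl _ h4
  refine ⟨G.biUnion fun l => sp l, ?_, ?_⟩
  · set U := G.biUnion fun l => sp l with hU
    have h0 : (0 : Fin m → ZMod p) ∈ G := by
      refine mem_filter.2 ⟨mem_univ _, fun j => by simp, ?_⟩
      simp [sp]
    have hadd : ∀ l ∈ G, ∀ l' ∈ G, l + l' ∈ G := by
      intro l hl l' hl'
      have a1 := (mem_filter.1 hl).2
      have a2 := (mem_filter.1 hl').2
      have b1 := hsm l a1.1 a1.2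
      have b2 := hsm l' a2.1 a2.2
      refine mem_filter.2 ⟨mem_univ _, ?_, ?_⟩
      · intro j
        simp only [Pi.add_apply, add_mul, Finset.sum_add_distrib, a1.1 j, a2.1 j, add_zero]
      · have := sp_add l l'
        omega
    have h1 : ∀ e ∈ U, G.card ≤ 2 * (G.filter fun l => l e ≠ 0).card := by
      intro e he
      obtain ⟨g, hg, hge⟩ := mem_biUnion.1 he
      have hge' : g e ≠ 0 := (mem_filter.1 hge).2
      have h2 : (G.filter fun l => ¬ l e ≠ 0).card ≤ (G.filter fun l => l e ≠ 0).card := by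
        refine Finset.card_le_card_of_injOn (fun l => l + g) ?_ ?_
        · intro l hl
          have hl' := mem_filter.1 (mem_coe.1 hl)
          refine mem_coe.2 (mem_filter.2 ⟨hadd l hl'.1 g hg, ?_⟩)
          have : l e = 0 := not_not.1 hl'.2
          simp [this, hge']
        · intro l _ l' _ h
          exact add_right_cancel h
      have h3 := Finset.card_filter_add_card_filter_not (s := G) (fun l => l e ≠ 0)
      omega
    have h2 : ∑ e ∈ U, (G.filter fun l => l e ≠ 0).card ≤ ∑ l ∈ G, (sp l).card := by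
      have h3 : ∀ e, (G.filter fun l => l e ≠ 0).card = ∑ l ∈ G, if l e ≠ 0 then 1 else 0 := by
        intro e
        rw [Finset.card_filter]
      have h4 : ∀ l : Fin m → ZMod p, (sp l).card = ∑ e, if l e ≠ 0 then 1 else 0 := by
        intro l
        rw [sp, Finset.card_filter]
      rw [Finset.sum_congr rfl fun e _ => h3 e, Finset.sum_congr rfl fun l _ => h4 l,
        Finset.sum_comm]
      refine Finset.sum_le_sum fun l _ => ?_
      exact Finset.sum_le_sum_of_subset (subset_univ _)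
    have h3 : U.card * G.card ≤ ∑ e ∈ U, 2 * (G.filter fun l => l e ≠ 0).card := by
      rw [← smul_eq_mul, ← Finset.sum_const]
      exact Finset.sum_le_sum h1
    have h4 : 2 * ∑ l ∈ G, (sp l).card ≤ r * G.card := by
      rw [Finset.mul_sum, mul_comm r, ← smul_eq_mul, ← Finset.sum_const]
      refine Finset.sum_le_sum fun l hl => ?_
      have := hsm l (mem_filter.1 hl).2.1 (mem_filter.1 hl).2.2
      omega
    rw [← Finset.mul_sum] at h3
    have h5 : U.card * G.card ≤ r * G.card := by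
      calc U.card * G.card ≤ 2 * ∑ e ∈ U, (G.filter fun l => l e ≠ 0).card := h3
        _ ≤ 2 * ∑ l ∈ G, (sp l).card := Nat.mul_le_mul_left _ h2
        _ ≤ _ := h4
    exact Nat.le_of_mul_le_mul_right h5 (card_pos.2 ⟨0, h0⟩)
  · intro l h1 h2
    exact Finset.subset_biUnion_of_mem (fun l => sp l) (mem_filter.2 ⟨mem_univ _, h1, h2⟩)

theorem rhs {M r : ℕ} (A : Fin (M + 1 + r) → Fin M → ZMod p)
    (hH : ∀ l : Fin (M + 1 + r) → ZMod p, r ≤ 2 * (sp l).card → (sp l).card ≤ 2 * r →
      (univ.filter fun j => ∑ e, l e * A e j = 0).card < M) :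
    ∃ c : Fin (M + 1 + r) → ZMod p,
      (∀ I : Finset (Fin (M + 1 + r)), I.card ≤ 2 * r →
        ∃ X : Fin M → ZMod p, ∀ e ∈ I, ∑ j, A e j * X j = c e) ∧
      ¬ ∃ X : Fin M → ZMod p, ∀ e, ∑ j, A e j * X j = c e := by
  classical
  obtain ⟨U, hU, hUs⟩ := kernel_union A hH
  -- a nonzero kernel vector outside `U`
  have h1 : ∃ l : Fin (M + 1 + r) → ZMod p, (∀ j, ∑ e, l e * A e j = 0) ∧
      ∃ e, e ∉ U ∧ l e ≠ 0 := by
    have hc : Fintype.card (Fin M → ZMod p) < Fintype.card ({e // e ∉ U} → ZMod p) := by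
      rw [Fintype.card_fun, Fintype.card_fun, ZMod.card, Fintype.card_fin]
      refine Nat.pow_lt_pow_right (Fact.out : p.Prime).one_lt ?_
      have : Fintype.card {e // e ∉ U} = (M + 1 + r) - U.card := by
        rw [Fintype.card_subtype_compl, Fintype.card_coe, Fintype.card_fin]
      omega
    obtain ⟨f, g, hfg, h⟩ := Fintype.exists_ne_map_eq_of_card_lt
      (fun (f : {e // e ∉ U} → ZMod p) (j : Fin M) => ∑ e : {e // e ∉ U}, f e * A e.1 j) hc
    obtain ⟨e0, he0⟩ : ∃ e, f e ≠ g e := by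
      by_contra hn
      push Not at hn
      exact hfg (funext hn)
    refine ⟨fun e => if h : e ∉ U then f ⟨e, h⟩ - g ⟨e, h⟩ else 0, ?_, e0.1, e0.2, ?_⟩
    · intro j
      rw [sum_sub (fun e => e ∉ U)]
      · have h2 : ∀ e : {e // e ∉ U}, (if h : e.1 ∉ U then f ⟨e.1, h⟩ - g ⟨e.1, h⟩ else 0) * A e.1 j =
            f e * A e.1 j - g e * A e.1 j := by
          intro e
          have := e.2
          simp [this, sub_mul]
        rw [Finset.sum_congr rfl fun e _ => h2 e, Finset.sum_sub_distrib]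
        have h9 := congrFun h j
        exact sub_eq_zero.2 h9
      · intro e he
        simp [not_not.1 he]
    · simp only [e0.2, not_false_eq_true, dite_true]
      exact sub_ne_zero.2 he0
  obtain ⟨l0, hl0, e0, he0U, he0⟩ := h1
  refine ⟨Pi.single e0 1, ?_, ?_⟩
  · intro I hI
    by_contra hno
    set T : (Fin M → ZMod p) →ₗ[ZMod p] ({e // e ∈ I} → ZMod p) :=
      { toFun := fun X e => ∑ j, A e.1 j * X j
        map_add' := by
          intro X Y
          funext e
          simp [mul_add, Finset.sum_add_distrib]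
        map_smul' := by
          intro a X
          funext e
          simp only [Pi.smul_apply, smul_eq_mul, RingHom.id_apply, Finset.mul_sum]
          exact Finset.sum_congr rfl fun j _ => by ring } with hT
    have h2 : (fun e : {e // e ∈ I} => (Pi.single e0 1 : Fin (M + 1 + r) → ZMod p) e.1) ∉
        LinearMap.range T := by
      rintro ⟨X, hX⟩
      exact hno ⟨X, fun e he => congrFun hX ⟨e, he⟩⟩
    obtain ⟨f, hf1, hf2⟩ := Submodule.exists_dual_map_eq_bot_of_notMem h2 inferInstance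
    have hf3 : ∀ X, f (T X) = 0 := by
      intro X
      have : f (T X) ∈ (LinearMap.range T).map f := Submodule.mem_map_of_mem ⟨X, rfl⟩
      rw [hf2] at this
      exact (Submodule.mem_bot _).1 this
    have hf4 : ∀ v : {e // e ∈ I} → ZMod p, f v = ∑ e, v e * f (Pi.single e 1) := by
      intro v
      conv_lhs => rw [← Finset.univ_sum_single v, map_sum]
      refine Finset.sum_congr rfl fun e _ => ?_
      have : (Pi.single e (v e) : {e // e ∈ I} → ZMod p) = v e • Pi.single e 1 := by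
        rw [← Pi.single_smul]
        simp
      rw [this, map_smul, smul_eq_mul]
    set l : Fin (M + 1 + r) → ZMod p := fun e => if h : e ∈ I then f (Pi.single ⟨e, h⟩ 1) else 0
      with hl
    have hlI : sp l ⊆ I := by
      intro e he
      by_contra h
      exact (mem_filter.1 he).2 (by simp [hl, h])
    have hlA : ∀ j, ∑ e, l e * A e j = 0 := by
      intro j
      rw [sum_sub (fun e => e ∈ I)]
      · rw [← hf3 (Pi.single j 1), hf4]
        refine Finset.sum_congr (by ext e; simp) fun e _ => ?_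
        have h5 : T (Pi.single j 1) e = A e.1 j := by
          simp [hT, Pi.single_apply]
        rw [h5]
        simp [hl, mul_comm]
      · intro e he
        simp [hl, he]
    have hlU := hUs l hlA ((card_le_card hlI).trans hI)
    have hle0 : l e0 = 0 := by
      by_contra h
      exact he0U (hlU (mem_filter.2 ⟨mem_univ _, h⟩))
    apply hf1
    rw [hf4]
    refine Finset.sum_eq_zero fun e _ => ?_
    by_cases h : e.1 = e0
    · have h6 : f (Pi.single e 1) = 0 := by
        have h7 : l e.1 = 0 := by rw [h, hle0]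
        simpa [hl] using h7
      rw [h6, mul_zero]
    · simp [h]
  · rintro ⟨X, hX⟩
    have h2 : ∑ e, l0 e * (Pi.single e0 1 : Fin (M + 1 + r) → ZMod p) e = l0 e0 := by
      simp [Pi.single_apply]
    have h3 : ∑ e, l0 e * (Pi.single e0 1 : Fin (M + 1 + r) → ZMod p) e = 0 := by
      calc ∑ e, l0 e * (Pi.single e0 1 : Fin (M + 1 + r) → ZMod p) e
          = ∑ e, ∑ j, l0 e * A e j * X j := by
            refine Finset.sum_congr rfl fun e _ => ?_
            rw [← hX e, Finset.mul_sum]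
            exact Finset.sum_congr rfl fun j _ => by ring
        _ = ∑ j, ∑ e, l0 e * A e j * X j := Finset.sum_comm
        _ = 0 := by
            refine Finset.sum_eq_zero fun j _ => ?_
            rw [← Finset.sum_mul, hl0 j, zero_mul]
    exact he0 (h2.symm.trans h3)

/-- **Expanding sparse linear systems modulo a prime.** -/
theorem expansion (ε : ℝ) (hε : 0 < ε) (P0 : ℕ) :
    ∃ p : ℕ, P0 ≤ p ∧ p.Prime ∧ ∃ a M0 : ℕ, ∀ M : ℕ, M0 ≤ M →
      ∃ (r m : ℕ) (A : Fin m → Fin M → ZMod p) (c : Fin m → ZMod p), 1 ≤ r ∧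
        (∀ e, (univ.filter fun j => A e j ≠ 0).card ≤ a) ∧
        (∀ l : Fin m → ZMod p, r ≤ 2 * (univ.filter fun e => l e ≠ 0).card →
          (univ.filter fun e => l e ≠ 0).card ≤ 2 * r →
          ((univ.filter fun j => ∑ e, l e * A e j = 0).card : ℝ) < ε * M) ∧
        (∀ I : Finset (Fin m), I.card ≤ 2 * r →
          ∃ X : Fin M → ZMod p, ∀ e ∈ I, ∑ j, A e j * X j = c e) ∧
        ¬ ∃ X : Fin M → ZMod p, ∀ e, ∑ j, A e j * X j = c e := by
  classical
  -- `E > 1 / ε`
  obtain ⟨E, hE'⟩ := exists_nat_gt (max (1 / ε) 1)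
  have hE : 1 / ε < E := lt_of_le_of_lt (le_max_left _ _) hE'
  have hE2 : 2 ≤ E := by
    have : ((1 : ℕ) : ℝ) < E := by
      push_cast
      exact lt_of_le_of_lt (le_max_right _ _) hE'
    exact_mod_cast this
  have hEpos : 0 < E := by omega
  obtain ⟨p, hp0, hp⟩ := Nat.exists_infinite_primes (max P0 (2 ^ (12 * E + 1)))
  have : Fact p.Prime := ⟨hp⟩
  refine ⟨p, (le_max_left _ _).trans hp0, hp, 16 * E * p, 16 * E, fun M hM => ?_⟩
  have hMpos : 0 < M := by omega
  set r := M / (4 * E) with hr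
  set z := M / E + 1 with hz
  have hr1 : 1 ≤ r := by
    rw [hr, Nat.one_le_div_iff (by omega)]
    omega
  have hr2 : 4 * E * r ≤ M := Nat.mul_div_le M (4 * E)
  have hr3 : M < 4 * E * (r + 1) := Nat.lt_mul_div_succ M (by omega)
  have hz1 : M < E * z := by
    have := Nat.lt_mul_div_succ M hEpos
    simpa [hz] using this
  have hz2 : E * (z - 1) ≤ M := by
    have := Nat.mul_div_le M E
    simpa [hz] using this
  have hp1 : 2 ^ (12 * E + 1) ≤ p := (le_max_right _ _).trans hp0
  have hpr : (0 : ℝ) < p := by exact_mod_cast hp.pos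
  have hMr : (0 : ℝ) < M := by exact_mod_cast hMpos
  have hEr : (0 : ℝ) < E := by exact_mod_cast hEpos
  -- the two numerical conditions
  have ha : Real.exp (-((r : ℝ) * ((16 * E * p : ℕ) : ℝ)) / (2 * M)) ≤ 1 / p := by
    have h1 : (M : ℝ) ≤ 8 * E * r := by
      have : M ≤ 8 * E * r := by nlinarith
      exact_mod_cast this
    have h2 : (p : ℝ) ≤ ((r : ℝ) * ((16 * E * p : ℕ) : ℝ)) / (2 * M) := by
      rw [le_div_iff₀ (by positivity)]
      push_cast
      nlinarith
    have h3 : (p : ℝ) ≤ Real.exp (((r : ℝ) * ((16 * E * p : ℕ) : ℝ)) / (2 * M)) := by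
      have := Real.add_one_le_exp (((r : ℝ) * ((16 * E * p : ℕ) : ℝ)) / (2 * M))
      linarith
    rw [neg_div, Real.exp_neg, one_div]
    exact inv_anti₀ hpr h3
  have h2rz : 2 * (2 * r) ≤ z := by
    by_contra h
    push Not at h
    have : E * (z + 1) ≤ E * (4 * r) := Nat.mul_le_mul_left _ (by omega)
    nlinarith
  have hnum : (2 : ℝ) ^ (M + 1 + r + M) * (p : ℝ) ^ (2 * r) * (2 / p) ^ z < 1 := by
    have h3 : (p : ℝ) ^ z = (p : ℝ) ^ (2 * r) * (p : ℝ) ^ (z - 2 * r) := by
      rw [← pow_add]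
      congr 1
      omega
    rw [div_pow, h3, mul_div_assoc', div_lt_one (by positivity)]
    have h4 : (2 : ℝ) ^ (M + 1 + r + M) * 2 ^ z < (p : ℝ) ^ (z - 2 * r) := by
      have h5 : (2 : ℕ) ^ (M + 1 + r + M) * 2 ^ z < p ^ (z - 2 * r) := by
        have h6 : (2 ^ (12 * E + 1)) ^ (z - 2 * r) ≤ p ^ (z - 2 * r) := Nat.pow_le_pow_left hp1 _
        refine lt_of_lt_of_le ?_ h6
        rw [← pow_add, ← pow_mul]
        refine Nat.pow_lt_pow_right (by norm_num) ?_
        have h7 : z ≤ 2 * (z - 2 * r) := by omega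
        have h8 : 6 * M < 6 * (E * z) := by omega
        have h9 : 6 * E * z ≤ 6 * E * (2 * (z - 2 * r)) := Nat.mul_le_mul_left _ h7
        have h10 : r ≤ M := by
          calc r ≤ 4 * E * r := Nat.le_mul_of_pos_left _ (by omega)
            _ ≤ M := hr2
        have h11 : z ≤ M + 1 := by
          have : M / E ≤ M := Nat.div_le_self _ _
          omega
        have h12 : (12 * E + 1) * (z - 2 * r) = 6 * E * (2 * (z - 2 * r)) + (z - 2 * r) := by ring
        rw [h12]
        have h13 : 6 * (E * z) = 6 * E * z := by ring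
        omega
      exact_mod_cast h5
    calc (2 : ℝ) ^ (M + 1 + r + M) * (p : ℝ) ^ (2 * r) * 2 ^ z
        = (p : ℝ) ^ (2 * r) * ((2 : ℝ) ^ (M + 1 + r + M) * 2 ^ z) := by ring
      _ < (p : ℝ) ^ (2 * r) * (p : ℝ) ^ (z - 2 * r) := mul_lt_mul_of_pos_left h4 (by positivity)
  obtain ⟨q, hq⟩ := exists_good (p := p) M (M + 1 + r) (16 * E * p) r z hMpos ha hnum
  set A : Fin (M + 1 + r) → Fin M → ZMod p := fun e j =>
    ∑ x : Fin (16 * E * p), if q.1 (e, x) = j then q.2 (e, x) else 0 with hA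
  have hlA : ∀ (l : Fin (M + 1 + r) → ZMod p) (j : Fin M), ∑ e, l e * A e j =
      ∑ i : Fin (M + 1 + r) × Fin (16 * E * p), (if q.1 i = j then l i.1 * q.2 i else 0) := by
    intro l j
    rw [Fintype.sum_prod_type]
    refine Finset.sum_congr rfl fun e _ => ?_
    simp only [hA, Finset.mul_sum, mul_ite, mul_zero]
  have hH : ∀ l : Fin (M + 1 + r) → ZMod p, r ≤ 2 * (univ.filter fun e => l e ≠ 0).card →
      (univ.filter fun e => l e ≠ 0).card ≤ 2 * r →
      (univ.filter fun j => ∑ e, l e * A e j = 0).card < z := by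
    intro l h1 h2
    by_contra h3
    push Not at h3
    obtain ⟨Z, hZ, hZc⟩ := Finset.exists_subset_card_eq h3
    refine hq l h1 h2 Z hZc fun j hj => ?_
    rw [← hlA]
    exact (mem_filter.1 (hZ hj)).2
  have hzM : z ≤ M := by
    have h1 : M / E ≤ M / 2 := Nat.div_le_div_left hE2 (by norm_num)
    omega
  have hH2 : ∀ l : Fin (M + 1 + r) → ZMod p, r ≤ 2 * (sp l).card → (sp l).card ≤ 2 * r →
      (univ.filter fun j => ∑ e, l e * A e j = 0).card < M := fun l h1 h2 =>
    lt_of_lt_of_le (hH l h1 h2) hzM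
  obtain ⟨c, hc1, hc2⟩ := rhs A hH2
  refine ⟨r, M + 1 + r, A, c, hr1, ?_, ?_, hc1, hc2⟩
  · intro e
    refine (card_le_card (t := univ.image fun x : Fin (16 * E * p) => q.1 (e, x)) ?_).trans
      (card_image_le.trans (by simp))
    intro j hj
    by_contra h
    apply (mem_filter.1 hj).2
    simp only [hA]
    refine Finset.sum_eq_zero fun x _ => ?_
    rw [if_neg]
    intro h1
    exact h (mem_image.2 ⟨x, mem_univ _, h1⟩)
  · intro l h1 h2
    have h3 := hH l h1 h2
    have h4 : (univ.filter fun j => ∑ e, l e * A e j = 0).card ≤ M / E := by omega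
    calc ((univ.filter fun j => ∑ e, l e * A e j = 0).card : ℝ) ≤ ((M / E : ℕ) : ℝ) := by exact_mod_cast h4
      _ ≤ (M : ℝ) / E := Nat.cast_div_le
      _ < ε * M := by
        rw [div_lt_iff₀ hEr]
        have : 1 < ε * E := by
          rw [div_lt_iff₀ hε] at hE
          linarith
        nlinarith

end Pool.Agent.H19.GR
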