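import Pool.Agent.H27.GR.Res
import Pool.Agent.H19.GR.Exp

/-!
# Part II: the matrix and the right side, in the form used by the final assembly
-/

namespace Pool.Agent.H19.GR.B

open Pool.Agent.H27.GR

open Finset

theorem PII_supp_add {m p : ℕ} (l l' : Fin m → ZMod p) :
    (supp (l + l')).card ≤ (supp l).card + (supp l').card := by
  classical
  refine (card_le_card ?_).trans (card_union_le _ _)
  intro e he
  rw [mem_union]
  by_contra h
  push Not at h
  have h1 : l e = 0 := by
    by_contra h'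
    exact h.1 (mem_filter.2 ⟨mem_univ _, h'⟩)
  have h2 : l' e = 0 := by
    by_contra h'
    exact h.2 (mem_filter.2 ⟨mem_univ _, h'⟩)
  exact (mem_filter.1 he).2 (by simp [h1, h2])

/-- The averaging argument, for a finite set closed under addition. -/
theorem PII_union {m p : ℕ} [Fact p.Prime] (G : Finset (Fin m → ZMod p)) (h : ℕ)
    (h0 : (0 : Fin m → ZMod p) ∈ G) (hadd : ∀ l ∈ G, ∀ l' ∈ G, l + l' ∈ G)
    (hG : ∀ l ∈ G, 2 * (supp l).card ≤ h) (U : Finset (Fin m))
    (hU : ∀ e ∈ U, ∃ l ∈ G, l e ≠ 0) : U.card ≤ h := by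
  classical
  have h1 : ∀ e ∈ U, G.card ≤ 2 * (G.filter fun l => l e ≠ 0).card := by
    intro e he
    obtain ⟨g, hg, hge'⟩ := hU e he
    have h2 : (G.filter fun l => ¬ l e ≠ 0).card ≤ (G.filter fun l => l e ≠ 0).card := by
      refine Finset.card_le_card_of_injOn (fun l => l + g) ?_ ?_
      · intro l hl
        have hl' := mem_filter.1 (mem_coe.1 hl)
        refine mem_coe.2 (mem_filter.2 ⟨hadd l hl'.1 g hg, ?_⟩)
        have : l e = 0 := not_not.1 hl'.2
        simp [this, hge']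
      · intro l _ l' _ h
        exact add_right_cancel h
    have h3 := Finset.card_filter_add_card_filter_not (s := G) (fun l => l e ≠ 0)
    omega
  have h2 : ∑ e ∈ U, (G.filter fun l => l e ≠ 0).card ≤ ∑ l ∈ G, (supp l).card := by
    have h3 : ∀ e, (G.filter fun l => l e ≠ 0).card = ∑ l ∈ G, if l e ≠ 0 then 1 else 0 := by
      intro e
      rw [Finset.card_filter]
    have h4 : ∀ l : Fin m → ZMod p, (supp l).card = ∑ e, if l e ≠ 0 then 1 else 0 := by
      intro l
      rw [supp, Finset.card_filter]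
    rw [Finset.sum_congr rfl fun e _ => h3 e, Finset.sum_congr rfl fun l _ => h4 l,
      Finset.sum_comm]
    refine Finset.sum_le_sum fun l _ => ?_
    exact Finset.sum_le_sum_of_subset (subset_univ _)
  have h3 : U.card * G.card ≤ ∑ e ∈ U, 2 * (G.filter fun l => l e ≠ 0).card := by
    rw [← smul_eq_mul, ← Finset.sum_const]
    exact Finset.sum_le_sum h1
  have h4 : 2 * ∑ l ∈ G, (supp l).card ≤ h * G.card := by
    rw [Finset.mul_sum, mul_comm h, ← smul_eq_mul, ← Finset.sum_const]
    exact Finset.sum_le_sum fun l hl => hG l hl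
  rw [← Finset.mul_sum] at h3
  have h5 : U.card * G.card ≤ h * G.card := by
    calc U.card * G.card ≤ 2 * ∑ e ∈ U, (G.filter fun l => l e ≠ 0).card := h3
      _ ≤ 2 * ∑ l ∈ G, (supp l).card := Nat.mul_le_mul_left _ h2
      _ ≤ _ := h4
  exact Nat.le_of_mul_le_mul_right h5 (card_pos.2 ⟨0, h0⟩)

open Classical in
/-- A subspace all of whose members have support at most `h` lives on at most `2 h` coordinates. -/
theorem supp_union {m p : ℕ} [Fact p.Prime] (L : Submodule (ZMod p) (Fin m → ZMod p)) (h : ℕ)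
    (hL : ∀ l ∈ L, (supp l).card ≤ h) :
    (univ.filter fun e => ∃ l ∈ L, l e ≠ 0).card ≤ 2 * h := by
  refine PII_union (univ.filter fun l => l ∈ L) (2 * h) ?_ ?_ ?_ _ ?_
  · exact mem_filter.2 ⟨mem_univ _, L.zero_mem⟩
  · intro l hl l' hl'
    exact mem_filter.2 ⟨mem_univ _, L.add_mem (mem_filter.1 hl).2 (mem_filter.1 hl').2⟩
  · intro l hl
    have := hL l (mem_filter.1 hl).2
    omega
  · intro e he
    obtain ⟨l, hl, hle⟩ := (mem_filter.1 he).2
    exact ⟨l, mem_filter.2 ⟨mem_univ _, hl⟩, hle⟩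

/-- Part II, the right side. -/
theorem exists_rhs {M m p r z : ℕ} [Fact p.Prime] (E : Fin m → Fin M → ZMod p) (hm : r + M < m)
    (hz : z ≤ M) (hE : Exp E r z) :
    ∃ c : Fin m → ZMod p, (¬ ∃ x : Fin M → ZMod p, ∀ e, ∑ j, E e j * x j = c e) ∧ Orth E c r := by
  classical
  set G := univ.filter fun l : Fin m → ZMod p => (∀ j, ∑ e, l e * E e j = 0) ∧
    (supp l).card ≤ 2 * r with hG
  have hsm : ∀ l : Fin m → ZMod p, (∀ j, ∑ e, l e * E e j = 0) → (supp l).card ≤ 2 * r →
      2 * (supp l).card ≤ r := by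
    intro l h1 h2
    by_contra h3
    push Not at h3
    have h4 := hE l h3 h2
    have h5 : zeros E l = univ := by
      ext j
      simp [zeros, h1 j]
    rw [h5, Finset.card_univ, Fintype.card_fin] at h4
    omega
  set U := univ.filter fun e => ∃ l ∈ G, l e ≠ 0 with hU
  have hUc : U.card ≤ r := by
    refine PII_union G r ?_ ?_ ?_ U fun e he => (mem_filter.1 he).2
    · refine mem_filter.2 ⟨mem_univ _, fun j => by simp, ?_⟩
      simp [supp]
    · intro l hl l' hl'
      have a1 := (mem_filter.1 hl).2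
      have a2 := (mem_filter.1 hl').2
      have b1 := hsm l a1.1 a1.2
      have b2 := hsm l' a2.1 a2.2
      refine mem_filter.2 ⟨mem_univ _, ?_, ?_⟩
      · intro j
        simp only [Pi.add_apply, add_mul, Finset.sum_add_distrib, a1.1 j, a2.1 j, add_zero]
      · have := PII_supp_add l l'
        omega
    · intro l hl
      exact hsm l (mem_filter.1 hl).2.1 (mem_filter.1 hl).2.2
  -- a nonzero kernel vector outside `U`
  have h1 : ∃ l : Fin m → ZMod p, (∀ j, ∑ e, l e * E e j = 0) ∧ ∃ e, e ∉ U ∧ l e ≠ 0 := by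
    have hc : Fintype.card (Fin M → ZMod p) < Fintype.card ({e // e ∉ U} → ZMod p) := by
      rw [Fintype.card_fun, Fintype.card_fun, ZMod.card, Fintype.card_fin]
      refine Nat.pow_lt_pow_right (Fact.out : p.Prime).one_lt ?_
      have : Fintype.card {e // e ∉ U} = m - U.card := by
        rw [Fintype.card_subtype_compl, Fintype.card_coe, Fintype.card_fin]
      omega
    obtain ⟨f, g, hfg, h⟩ := Fintype.exists_ne_map_eq_of_card_lt
      (fun (f : {e // e ∉ U} → ZMod p) (j : Fin M) => ∑ e : {e // e ∉ U}, f e * E e.1 j) hc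
    obtain ⟨e0, he0⟩ : ∃ e, f e ≠ g e := by
      by_contra hn
      push Not at hn
      exact hfg (funext hn)
    refine ⟨fun e => if h : e ∉ U then f ⟨e, h⟩ - g ⟨e, h⟩ else 0, ?_, e0.1, e0.2, ?_⟩
    · intro j
      rw [Pool.Agent.H19.GR.sum_sub (fun e => e ∉ U)]
      · have h2 : ∀ e : {e // e ∉ U},
            (if h : e.1 ∉ U then f ⟨e.1, h⟩ - g ⟨e.1, h⟩ else 0) * E e.1 j =
            f e * E e.1 j - g e * E e.1 j := by
          intro e
          have := e.2
          simp [this, sub_mul]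
        rw [Finset.sum_congr rfl fun e _ => h2 e, Finset.sum_sub_distrib]
        have h9 := congrFun h j
        exact sub_eq_zero.2 h9
      · intro e he
        simp [not_not.1 he]
    · simp only [e0.2, not_false_eq_true, dite_true]
      exact sub_ne_zero.2 he0
  obtain ⟨l0, hl0, e0, he0U, he0⟩ := h1
  refine ⟨Pi.single e0 1, ?_, ?_⟩
  · rintro ⟨X, hX⟩
    have h2 : ∑ e, l0 e * (Pi.single e0 1 : Fin m → ZMod p) e = l0 e0 := by
      simp [Pi.single_apply]
    have h3 : ∑ e, l0 e * (Pi.single e0 1 : Fin m → ZMod p) e = 0 := by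
      calc ∑ e, l0 e * (Pi.single e0 1 : Fin m → ZMod p) e
          = ∑ e, ∑ j, l0 e * E e j * X j := by
            refine Finset.sum_congr rfl fun e _ => ?_
            rw [← hX e, Finset.mul_sum]
            exact Finset.sum_congr rfl fun j _ => by ring
        _ = ∑ j, ∑ e, l0 e * E e j * X j := Finset.sum_comm
        _ = 0 := by
            refine Finset.sum_eq_zero fun j _ => ?_
            rw [← Finset.sum_mul, hl0 j, zero_mul]
    exact he0 (h2.symm.trans h3)
  · intro l hl hlr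
    have h2 : ∑ e, l e * (Pi.single e0 1 : Fin m → ZMod p) e = l e0 := by
      simp [Pi.single_apply]
    rw [h2]
    by_contra h
    exact he0U (mem_filter.2 ⟨mem_univ _, l, mem_filter.2 ⟨mem_univ _, hl, hlr⟩, h⟩)

/-- Part II, the matrix. -/
theorem exists_matrix (ε : ℝ) (hε : 0 < ε) : ∃ p : ℕ, p.Prime ∧ ∃ w M₀ : ℕ, ∀ M ≥ M₀,
    ∃ r : ℕ, 1 ≤ r ∧ r < M ∧ ∃ E : Fin (2 * M) → Fin M → ZMod p,
      (∀ e, (univ.filter fun j => E e j ≠ 0).card ≤ w) ∧ Exp E r ⌈ε * M⌉₊ := by
  classical
  obtain ⟨E, hE'⟩ := exists_nat_gt (max (1 / ε) 1)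
  have hE : 1 / ε < E := lt_of_le_of_lt (le_max_left _ _) hE'
  have hE2 : 2 ≤ E := by
    have : ((1 : ℕ) : ℝ) < E := by
      push_cast
      exact lt_of_le_of_lt (le_max_right _ _) hE'
    exact_mod_cast this
  have hEpos : 0 < E := by omega
  obtain ⟨p, hp1, hp⟩ := Nat.exists_infinite_primes (2 ^ (12 * E + 1))
  have : Fact p.Prime := ⟨hp⟩
  refine ⟨p, hp, 16 * E * p, 16 * E, fun M hM => ?_⟩
  have hMpos : 0 < M := by omega
  set r := M / (4 * E) with hr
  set z := M / E + 1 with hz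
  have hr1 : 1 ≤ r := by
    rw [hr, Nat.one_le_div_iff (by omega)]
    omega
  have hr2 : 4 * E * r ≤ M := Nat.mul_div_le M (4 * E)
  have hr3 : M < 4 * E * (r + 1) := Nat.lt_mul_div_succ M (by omega)
  have hz1 : M < E * z := by
    have := Nat.lt_mul_div_succ M hEpos
    simpa [hz] using this
  have hz2 : E * (z - 1) ≤ M := by
    have := Nat.mul_div_le M E
    simpa [hz] using this
  have hpr : (0 : ℝ) < p := by exact_mod_cast hp.pos
  have hMr : (0 : ℝ) < M := by exact_mod_cast hMpos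
  have hEr : (0 : ℝ) < E := by exact_mod_cast hEpos
  have hrM : r < M := by nlinarith
  -- the two numerical conditions
  have ha : Real.exp (-((r : ℝ) * ((16 * E * p : ℕ) : ℝ)) / (2 * M)) ≤ 1 / p := by
    have h1 : (M : ℝ) ≤ 8 * E * r := by
      have : M ≤ 8 * E * r := by nlinarith
      exact_mod_cast this
    have h2 : (p : ℝ) ≤ ((r : ℝ) * ((16 * E * p : ℕ) : ℝ)) / (2 * M) := by
      rw [le_div_iff₀ (by positivity)]
      push_cast
      nlinarith
    have h3 : (p : ℝ) ≤ Real.exp (((r : ℝ) * ((16 * E * p : ℕ) : ℝ)) / (2 * M)) := by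
      have := Real.add_one_le_exp (((r : ℝ) * ((16 * E * p : ℕ) : ℝ)) / (2 * M))
      linarith
    rw [neg_div, Real.exp_neg, one_div]
    exact inv_anti₀ hpr h3
  have h2rz : 2 * (2 * r) ≤ z := by
    by_contra h
    push Not at h
    have : E * (z + 1) ≤ E * (4 * r) := Nat.mul_le_mul_left _ (by omega)
    nlinarith
  have hnum : (2 : ℝ) ^ (2 * M + M) * (p : ℝ) ^ (2 * r) * (2 / p) ^ z < 1 := by
    have h3 : (p : ℝ) ^ z = (p : ℝ) ^ (2 * r) * (p : ℝ) ^ (z - 2 * r) := by
      rw [← pow_add]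
      congr 1
      omega
    rw [div_pow, h3, mul_div_assoc', div_lt_one (by positivity)]
    have h4 : (2 : ℝ) ^ (2 * M + M) * 2 ^ z < (p : ℝ) ^ (z - 2 * r) := by
      have h5 : (2 : ℕ) ^ (2 * M + M) * 2 ^ z < p ^ (z - 2 * r) := by
        have h6 : (2 ^ (12 * E + 1)) ^ (z - 2 * r) ≤ p ^ (z - 2 * r) := Nat.pow_le_pow_left hp1 _
        refine lt_of_lt_of_le ?_ h6
        rw [← pow_add, ← pow_mul]
        refine Nat.pow_lt_pow_right (by norm_num) ?_
        have h7 : z ≤ 2 * (z - 2 * r) := by omega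
        have h8 : 6 * M < 6 * (E * z) := by omega
        have h9 : 6 * E * z ≤ 6 * E * (2 * (z - 2 * r)) := Nat.mul_le_mul_left _ h7
        have h11 : z ≤ M + 1 := by
          have : M / E ≤ M := Nat.div_le_self _ _
          omega
        have h12 : (12 * E + 1) * (z - 2 * r) = 6 * E * (2 * (z - 2 * r)) + (z - 2 * r) := by ring
        rw [h12]
        have h13 : 6 * (E * z) = 6 * E * z := by ring
        omega
      exact_mod_cast h5
    calc (2 : ℝ) ^ (2 * M + M) * (p : ℝ) ^ (2 * r) * 2 ^ z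
        = (p : ℝ) ^ (2 * r) * ((2 : ℝ) ^ (2 * M + M) * 2 ^ z) := by ring
      _ < (p : ℝ) ^ (2 * r) * (p : ℝ) ^ (z - 2 * r) := mul_lt_mul_of_pos_left h4 (by positivity)
  obtain ⟨q, hq⟩ := Pool.Agent.H19.GR.exists_good (p := p) M (2 * M) (16 * E * p) r z hMpos ha hnum
  set A : Fin (2 * M) → Fin M → ZMod p := fun e j =>
    ∑ x : Fin (16 * E * p), if q.1 (e, x) = j then q.2 (e, x) else 0 with hA
  have hlA : ∀ (l : Fin (2 * M) → ZMod p) (j : Fin M), ∑ e, l e * A e j =
      ∑ i : Fin (2 * M) × Fin (16 * E * p), (if q.1 i = j then l i.1 * q.2 i else 0) := by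
    intro l j
    rw [Fintype.sum_prod_type]
    refine Finset.sum_congr rfl fun e _ => ?_
    simp only [hA, Finset.mul_sum, mul_ite, mul_zero]
  refine ⟨r, hr1, hrM, A, ?_, ?_⟩
  · intro e
    have h1 : (univ.filter fun j => A e j ≠ 0) ⊆
        (univ : Finset (Fin (16 * E * p))).image fun x => q.1 (e, x) := by
      intro j hj
      by_contra h
      apply (mem_filter.1 hj).2
      simp only [hA]
      refine Finset.sum_eq_zero fun x _ => ?_
      rw [if_neg]
      intro hx
      exact h (mem_image.2 ⟨x, mem_univ _, hx⟩)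
    refine (card_le_card h1).trans (card_image_le.trans ?_)
    simp
  · intro l h1 h2
    have h3 : (zeros A l).card < z := by
      by_contra h3
      push Not at h3
      obtain ⟨Z, hZ, hZc⟩ := Finset.exists_subset_card_eq h3
      refine hq l h1.le h2 Z hZc fun j hj => ?_
      rw [← hlA]
      exact (mem_filter.1 (hZ hj)).2
    have h4 : z ≤ ⌈ε * M⌉₊ := by
      rw [hz, Nat.add_one_le_iff, Nat.lt_ceil]
      have h5 : ((M / E : ℕ) : ℝ) ≤ M / E := Nat.cast_div_le
      refine lt_of_le_of_lt h5 ?_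
      rw [div_lt_iff₀ hEr]
      have h6 : 1 < E * ε := by
        rw [div_lt_iff₀ hε] at hE
        exact hE
      nlinarith
    omega

/-- Few rows orthogonal to the small dependencies: solvable. -/
theorem solvable {M m p r : ℕ} [Fact p.Prime] (A : Fin m → Fin M → ZMod p) (c : Fin m → ZMod p)
    (hc : Orth A c r) (I : Finset (Fin m)) (hI : I.card ≤ 2 * r) :
    ∃ x : Fin M → ZMod p, ∀ e ∈ I, ∑ j, A e j * x j = c e := by
  classical
  by_contra hno
  set T : (Fin M → ZMod p) →ₗ[ZMod p] ({e // e ∈ I} → ZMod p) :=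
    { toFun := fun X e => ∑ j, A e.1 j * X j
      map_add' := by
        intro X Y
        funext e
        simp [mul_add, Finset.sum_add_distrib]
      map_smul' := by
        intro a X
        funext e
        simp only [Pi.smul_apply, smul_eq_mul, RingHom.id_apply, Finset.mul_sum]
        exact Finset.sum_congr rfl fun j _ => by ring } with hT
  have h2 : (fun e : {e // e ∈ I} => c e.1) ∉ LinearMap.range T := by
    rintro ⟨X, hX⟩
    exact hno ⟨X, fun e he => congrFun hX ⟨e, he⟩⟩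
  obtain ⟨f, hf1, hf2⟩ := Submodule.exists_dual_map_eq_bot_of_notMem h2 inferInstance
  have hf3 : ∀ X, f (T X) = 0 := by
    intro X
    have : f (T X) ∈ (LinearMap.range T).map f := Submodule.mem_map_of_mem ⟨X, rfl⟩
    rw [hf2] at this
    exact (Submodule.mem_bot _).1 this
  have hf4 : ∀ v : {e // e ∈ I} → ZMod p, f v = ∑ e, v e * f (Pi.single e 1) := by
    intro v
    conv_lhs => rw [← Finset.univ_sum_single v, map_sum]
    refine Finset.sum_congr rfl fun e _ => ?_
    have : (Pi.single e (v e) : {e // e ∈ I} → ZMod p) = v e • Pi.single e 1 := by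
      rw [← Pi.single_smul]
      simp
    rw [this, map_smul, smul_eq_mul]
  set l : Fin m → ZMod p := fun e => if h : e ∈ I then f (Pi.single ⟨e, h⟩ 1) else 0
    with hl
  have hlI : supp l ⊆ I := by
    intro e he
    by_contra h
    exact (mem_filter.1 he).2 (by simp [hl, h])
  have hlA : ∀ j, ∑ e, l e * A e j = 0 := by
    intro j
    rw [Pool.Agent.H19.GR.sum_sub (fun e => e ∈ I)]
    · rw [← hf3 (Pi.single j 1), hf4]
      refine Finset.sum_congr (by ext e; simp) fun e _ => ?_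
      have h5 : T (Pi.single j 1) e = A e.1 j := by
        simp [hT, Pi.single_apply]
      rw [h5]
      simp [hl, mul_comm]
    · intro e he
      simp [hl, he]
  have h6 := hc l hlA ((card_le_card hlI).trans hI)
  apply hf1
  rw [hf4, ← h6, Pool.Agent.H19.GR.sum_sub (fun e => e ∈ I) (fun e => l e * c e)]
  · refine Finset.sum_congr (by ext e; simp) fun e _ => ?_
    simp [hl, mul_comm]
  · intro e he
    simp [hl, he]

/-- The matrix and the right side (Part II). -/
theorem expansion (ε : ℝ) (hε : 0 < ε) : ∃ p : ℕ, p.Prime ∧ ∃ w M₀ : ℕ, ∀ M ≥ M₀,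
    ∃ r m : ℕ, 1 ≤ r ∧ m ≤ 2 * M ∧ ∃ (E : Fin m → Fin M → ZMod p) (c : Fin m → ZMod p),
      (∀ e, (univ.filter fun j => E e j ≠ 0).card ≤ w) ∧ Exp E r ⌈ε * M⌉₊ ∧
      (∀ I : Finset (Fin m), I.card ≤ r →
        ∃ x : Fin M → ZMod p, ∀ e ∈ I, ∑ j, E e j * x j = c e) ∧
      ¬ ∃ x : Fin M → ZMod p, ∀ e, ∑ j, E e j * x j = c e := by
  obtain ⟨p, hp, w, M₀, h⟩ := exists_matrix (min ε 1) (lt_min hε one_pos)
  have : Fact p.Prime := ⟨hp⟩
  refine ⟨p, hp, w, M₀, fun M hM => ?_⟩
  obtain ⟨r, hr1, hr2, E, hw, hE⟩ := h M hM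
  have hz : ⌈min ε 1 * M⌉₊ ≤ M := by
    rw [Nat.ceil_le]
    calc min ε 1 * (M : ℝ) ≤ 1 * M := mul_le_mul_of_nonneg_right (min_le_right _ _) (Nat.cast_nonneg M)
      _ = M := one_mul _
  obtain ⟨c, hc1, hc2⟩ := exists_rhs E (by omega) hz hE
  refine ⟨r, 2 * M, hr1, le_rfl, E, c, hw, ?_, ?_, hc1⟩
  · intro l h1 h2
    refine lt_of_lt_of_le (hE l h1 h2) (Nat.ceil_le_ceil ?_)
    exact mul_le_mul_of_nonneg_right (min_le_left _ _) (Nat.cast_nonneg M)
  · intro I hI
    exact solvable E c hc2 I (by omega)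

end Pool.Agent.H19.GR.B
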